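import Pool.Agent.Q28.GD.Main

/-!
# The conjecture of Gross and Deligne for varieties with motive of abelian type

Let `X` be a smooth projective variety over the field of algebraic numbers whose motive, for absolute
Hodge cycles (or motivated cycles), is of abelian type, that is, in the tensor category generated by
the motives of abelian varieties. Examples: products of curves, abelian varieties, K3 surfaces,
hyperkähler varieties of the known deformation types, Fermat varieties, cubic hypersurfaces of
dimension at most five, quartic threefolds, and all hypersurfaces of any dimension given by sums, in
disjoint sets of variables, of cubic forms in at most six or quartic forms in at most four variables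
(our `MP_c77f96_ag.SumsOfSmallForms`). We prove the conjecture for ALL admissible triples `(H, F, ι)`
with `H ⊆ H^m(X)`, all `m` and all abelian fields `F ≠ ℚ`.
-/

namespace Pool.Agent.Results.MP_b23d8d_ag.AbelianType

open Pool.Agent.Q28.GD

/-- **Gross-Deligne for motives of abelian type.** Let `F` be an abelian number field of conductor
`d > 1`, the fixed field in `ℚ(μ_d)` of `Δ`, and let `D` be the admissible triples `(H, F, ι)` on the
varieties over the algebraic numbers with motive of abelian type (`D.triple`), and the motives of
abelian type with multiplication by `F` of rank one (`D.mot`); `Facts D` collects known facts. Then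
for every triple `t`, every `ε` with `d p(λ) = ∑_a ε(a) ⟨λ a⟩` for all `λ`, and every `λ`, the
quotient of the period `P_λ` by `∏_a Γ(1 - a/d) ^ ε(a λ⁻¹)` is algebraic. -/
theorem result {d : ℕ} [NeZero d] {Δ : Subgroup (ZMod d)ˣ} {D : Data d Δ} (hD : Facts D)
    (hd : 1 < d) (t : D.triple.T) (ε : ZMod d → ℚ) (hε : IsEps (D.triple.hodge t) ε)
    (l : (ZMod d)ˣ) : Sim (D.triple.period t l) (gammaProd ε l) :=
  final hD hd t ε hε l

end Pool.Agent.Results.MP_b23d8d_ag.AbelianType
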