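import Pool.Agent.Q28.GE.Tate

/-!
# The conjecture of Gross and Deligne for one triple and Hodge classes on one product

Let `F` be an abelian number field of conductor `d > 1` which is not real. We consider the admissible
triples `(H, F, ι)`, `H ⊆ H^m(X)`, for the smooth projective varieties `X` over the field of
algebraic numbers, as in the conjecture of Gross and Deligne. For each triple `H` of weight `m` there
are abelian varieties `A_1, …, A_m` with complex multiplication by `F` such that the tensor product
`T` of `H` and the `H^1(A_i)` over `F` consists of Hodge classes (on the product of `X` with the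
`A_i`), and the conjecture for `H` holds if and only if the periods of `T` are algebraic multiples
of `π ^ m`.
-/

namespace Pool.Agent.Results.MP_b23d8d_ag.OneTripleOfHodgeClasses

open Pool.Agent.Q28.GD Pool.Agent.Q28.GE

/-- **The conjecture of Gross and Deligne for one triple is decided by Hodge classes on the product
with abelian varieties.** -/
theorem result {d : ℕ} [NeZero d] (hd : 1 < d) {Δ : Subgroup (ZMod d)ˣ} {D : AllTriples d}
    (hF : Facts Δ D) (hΔ : (-1 : (ZMod d)ˣ) ∉ Δ) (t : D.tr.T) :
    ∃ As : List D.tr.T, (∀ A ∈ As, D.AV A) ∧
      As.length = D.tr.weight t ∧ IsTateType D (prod D t As) (D.tr.weight t) ∧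
      (GrossDeligne D t ↔
        ∀ l, Sim (D.tr.period (prod D t As) l) ((Real.pi : ℂ) ^ D.tr.weight t)) := by
  obtain ⟨As, h1, h2, h3, h4⟩ := to_tate hF hΔ t
  exact ⟨As, h1, h2, h3, h4.trans (gd_tate hF hd h3)⟩

end Pool.Agent.Results.MP_b23d8d_ag.OneTripleOfHodgeClasses
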