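import Pool.Agent.Q28.GE.Tate

/-!
# The conjecture of Gross and Deligne is a statement on Hodge classes

Let `F` be an abelian number field of conductor `d > 1`. We consider all admissible triples
`(H, F, ι)`, `H ⊆ H^m(X)`, for all smooth projective varieties `X` over the field of algebraic
numbers and all `m`, as in the conjecture of Gross and Deligne. The conjecture holds for all triples
if and only if it holds for the triples which consist of Hodge classes (there it says that the Hodge
classes are, up to the power `π ^ k`, defined over the algebraic numbers in de Rham cohomology), if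
and only if the periods depend only on the Hodge numbers.
-/

namespace Pool.Agent.Results.MP_b23d8d_ag.TateTypeSuffices

open Pool.Agent.Q28.GD Pool.Agent.Q28.GE

/-- **Reduction of the conjecture of Gross and Deligne to Hodge classes.** -/
theorem result {d : ℕ} [NeZero d] (hd : 1 < d) {Δ : Subgroup (ZMod d)ˣ} {D : AllTriples d}
    (hF : Facts Δ D) :
    List.TFAE [∀ t, GrossDeligne D t,
      ∀ t k, IsTateType D t k → ∀ l, Sim (D.tr.period t l) ((Real.pi : ℂ) ^ k),
      ∀ t u, D.tr.hodge t = D.tr.hodge u → ∀ l, Sim (D.tr.period t l) (D.tr.period u l)] :=
  tfae hF hd

end Pool.Agent.Results.MP_b23d8d_ag.TateTypeSuffices
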