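import Pool.Agent.Q28.GE.Tate

/-!
# The conjecture of Gross and Deligne and tensor products of Galois twists

Let `F` be an abelian number field of conductor `d`. We consider the admissible triples
`(H, F, ι)`, `H ⊆ H^m(X)`, for the smooth projective varieties `X` over the field of algebraic
numbers, as in the conjecture of Gross and Deligne. For `g` in the Galois group of `F` let `H^(g)` be
the triple `H` on which `F` acts through `g`. If no character of the Galois group of `F` vanishes on
`g_1 + ⋯ + g_r`, then the conjecture holds for `H` if and only if it holds for the tensor product of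
`H^(g_1), …, H^(g_r)` over `F`; for example, for one tensor power of `H`.
-/

namespace Pool.Agent.Results.MP_b23d8d_ag.TensorsOfTwists

open Pool.Agent.Q28.GD Pool.Agent.Q28.GE

/-- **The conjecture of Gross and Deligne can be decided on tensor products of Galois twists.** -/
theorem result {d : ℕ} [NeZero d] {Δ : Subgroup (ZMod d)ˣ} {D : AllTriples d}
    (hF : Facts Δ D) (t : D.tr.T) (g : (ZMod d)ˣ) (L : List (ZMod d)ˣ) (hL : NoZero Δ (g :: L)) :
    GrossDeligne D t ↔ GrossDeligne D (twists D t g L) :=
  gd_twists hF t g L hL

end Pool.Agent.Results.MP_b23d8d_ag.TensorsOfTwists
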